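import Mathlib

set_option autoImplicit false
set_option linter.unusedSectionVars false
set_option linter.unnecessarySimpa false

namespace Pool.Agent.Results.MP_b1a016_al.ExponentBound

universe u

variable {G : Type u} [Group G] [TopologicalSpace G] [IsTopologicalGroup G] [CompactSpace G]
  [T2Space G] [TotallyDisconnectedSpace G] {p : ℕ}

theorem mem_cl {c y : G} : y ∈ (Subgroup.zpowers c).topologicalClosure ↔
    ∀ U : OpenNormalSubgroup G, ∃ m : ℤ, y⁻¹ * c ^ m ∈ U := by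
  change y ∈ closure (Subgroup.zpowers c : Set G) ↔ _
  rw [mem_closure_iff]
  constructor
  · intro h U
    obtain ⟨_, hz, m, rfl⟩ := h ((y⁻¹ * ·) ⁻¹' U) (U.isOpen.preimage (by fun_prop))
      (by simpa using U.one_mem)
    exact ⟨m, hz⟩
  · intro h W hW hy
    obtain ⟨U, hU⟩ := ProfiniteGrp.exist_openNormalSubgroup_sub_open_nhds_of_one
      (U := (y * ·) ⁻¹' W) (hW.preimage (by fun_prop)) (by simpa using hy)
    obtain ⟨m, hm⟩ := h U
    exact ⟨c ^ m, by simpa using hU hm, m, rfl⟩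

theorem pow_mem_U (hp : ∀ U : OpenNormalSubgroup G, IsPGroup p (G ⧸ U.toSubgroup))
    (U : OpenNormalSubgroup G) (g : G) : ∃ k : ℕ, g ^ p ^ k ∈ U := by
  obtain ⟨k, hk⟩ := hp U (QuotientGroup.mk g)
  exact ⟨k, (QuotientGroup.eq_one_iff _).1 hk⟩


/-- If `c` is in the closed subgroup generated by `x` and not in `N`, then this closed subgroup
generated by `c` contains the powers of `x` which are in `N`. -/
theorem key (hpp : p.Prime) (hp : ∀ U : OpenNormalSubgroup G, IsPGroup p (G ⧸ U.toSubgroup))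
    {x c : G} (hc : c ∈ (Subgroup.zpowers x).topologicalClosure) (N : OpenNormalSubgroup G)
    (h1 : c ∉ N) {k : ℕ} (hk : x ^ p ^ k ∈ N) :
    x ^ p ^ k ∈ (Subgroup.zpowers c).topologicalClosure := by
  refine mem_cl.2 fun U => ?_
  obtain ⟨m, hm⟩ := mem_cl.1 hc (U ⊓ N)
  obtain ⟨j, hj⟩ := pow_mem_U hp U x
  have hmU : c⁻¹ * x ^ m ∈ U := hm.1
  have hmN : c⁻¹ * x ^ m ∈ N := hm.2
  have hnd : ¬ ((p ^ k : ℕ) : ℤ) ∣ m := by
    rintro ⟨t, rfl⟩
    have h2 : x ^ (((p ^ k : ℕ) : ℤ) * t) ∈ N.toSubgroup := by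
      rw [zpow_mul, zpow_natCast]; exact N.toSubgroup.zpow_mem hk t
    have h3 := N.toSubgroup.mul_mem h2 (N.toSubgroup.inv_mem hmN)
    have h4 : x ^ (((p ^ k : ℕ) : ℤ) * t) * (c⁻¹ * x ^ (((p ^ k : ℕ) : ℤ) * t))⁻¹ = c := by group
    rw [h4] at h3
    exact h1 h3
  obtain ⟨i, -, hi⟩ := (Nat.dvd_prime_pow hpp).1
    (Int.natCast_dvd_natCast.1 (Int.gcd_dvd_right m ((p ^ j : ℕ) : ℤ)))
  have hik : i ≤ k := by
    by_contra h
    refine hnd (dvd_trans ?_ (Int.gcd_dvd_left m ((p ^ j : ℕ) : ℤ)))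
    rw [hi]; exact Int.natCast_dvd_natCast.2 (pow_dvd_pow _ (by omega))
  have hb := Int.gcd_eq_gcd_ab m ((p ^ j : ℕ) : ℤ)
  rw [hi] at hb
  obtain ⟨d, rfl⟩ := Nat.exists_eq_add_of_le hik
  refine ⟨m.gcdA ((p ^ j : ℕ) : ℤ) * (p ^ d : ℕ), QuotientGroup.eq.1 ?_⟩
  have e1 : (QuotientGroup.mk c : G ⧸ U.toSubgroup) = QuotientGroup.mk x ^ m :=
    QuotientGroup.eq.2 hmU
  have e2 : (QuotientGroup.mk x : G ⧸ U.toSubgroup) ^ ((p ^ j : ℕ) : ℤ) = 1 := by
    rw [zpow_natCast]; exact (QuotientGroup.eq_one_iff _).2 hj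
  rw [QuotientGroup.mk_pow, QuotientGroup.mk_zpow, e1, pow_add, pow_mul, ← zpow_natCast _ (p ^ i), hb,
    zpow_add, zpow_mul _ ((p ^ j : ℕ) : ℤ), e2, one_zpow, mul_one, zpow_mul, zpow_mul, zpow_natCast]

omit [CompactSpace G] [TotallyDisconnectedSpace G] in
theorem comm_cl {x y c : G} (h : Commute y x) (hc : c ∈ (Subgroup.zpowers x).topologicalClosure) :
    Commute y c := by
  have : (Subgroup.zpowers x).topologicalClosure ≤ Subgroup.centralizer {y} :=
    Subgroup.topologicalClosure_minimal _ (by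
      rw [Subgroup.zpowers_le, Subgroup.mem_centralizer_singleton_iff]; exact h.symm.eq)
      (Set.isClosed_centralizer _)
  exact (Subgroup.mem_centralizer_singleton_iff.1 (this hc)).symm

omit [CompactSpace G] [TotallyDisconnectedSpace G] in
theorem fin_cl {x c : G} (h : IsOfFinOrder x) (hc : c ∈ (Subgroup.zpowers x).topologicalClosure) :
    IsOfFinOrder c := by
  obtain ⟨m, rfl⟩ := Subgroup.topologicalClosure_minimal _ le_rfl (finite_zpowers.2 h).isClosed hc
  exact h.zpow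


/-- The closed subgroup `S̃(G)`. -/
def Stilde (G : Type u) [Group G] [TopologicalSpace G] [IsTopologicalGroup G] : Subgroup G :=
  (sSup {L : Subgroup G | IsClosed (L : Set G) ∧ ¬ L.Normal}).topologicalClosure

theorem self_mem (x : G) : x ∈ (Subgroup.zpowers x).topologicalClosure :=
  Subgroup.le_topologicalClosure _ (Subgroup.mem_zpowers x)

theorem normal_of_notMem {x : G} (hx : x ∉ Stilde G) :
    (Subgroup.zpowers x).topologicalClosure.Normal := by
  by_contra h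
  exact hx (Subgroup.le_topologicalClosure _ (le_sSup (s := {L : Subgroup G | IsClosed (L : Set G) ∧
    ¬ L.Normal}) ⟨Subgroup.isClosed_topologicalClosure _, h⟩ (self_mem x)))

/-- Elements outside `S̃(G)` which do not commute modulo `N` have bounded order. -/
theorem order_bound (hpp : p.Prime)
    (hp : ∀ U : OpenNormalSubgroup G, IsPGroup p (G ⧸ U.toSubgroup)) (N : OpenNormalSubgroup G)
    {x y : G} (hx : x ∉ Stilde G) (hy : y ∉ Stilde G) (hxy : x * y * x⁻¹ * y⁻¹ ∉ N) {j : ℕ}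
    (hj : x ^ p ^ j ∈ N) : x ^ p ^ (2 * j) = 1 := by
  have c1 : x * y * x⁻¹ * y⁻¹ ∈ (Subgroup.zpowers x).topologicalClosure := by
    have := Subgroup.mul_mem _ (self_mem x)
      ((normal_of_notMem hx).conj_mem _ (Subgroup.inv_mem _ (self_mem x)) y)
    simpa [mul_assoc] using this
  have c2 : x * y * x⁻¹ * y⁻¹ ∈ (Subgroup.zpowers y).topologicalClosure :=
    Subgroup.mul_mem _ ((normal_of_notMem hy).conj_mem _ (self_mem y) x)
      (Subgroup.inv_mem _ (self_mem y))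
  have hk := key hpp hp c1 N hxy hj
  have hxc := comm_cl (Commute.refl x) c1
  have hyk := comm_cl (comm_cl (Commute.refl y) c2) hk
  generalize hc : x * y * x⁻¹ * y⁻¹ = c at *
  have e : y * x * y⁻¹ = c⁻¹ * x := by rw [← hc]; group
  have e2 : (c⁻¹ * x) ^ p ^ j = x ^ p ^ j := by
    rw [← e, conj_pow, hyk.eq]; group
  rw [hxc.symm.inv_left.mul_pow, mul_eq_right, inv_pow, inv_eq_one] at e2
  have hcf : IsOfFinOrder c :=
    isOfFinOrder_iff_pow_eq_one.2 ⟨_, Nat.pos_of_ne_zero (pow_ne_zero j hpp.ne_zero), e2⟩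
  obtain ⟨m, hm⟩ := Subgroup.topologicalClosure_minimal _ le_rfl (finite_zpowers.2 hcf).isClosed hk
  have hm' : c ^ m = x ^ p ^ j := hm
  rw [two_mul, pow_add, pow_mul, ← hm', ← zpow_natCast, ← zpow_mul, mul_comm m, zpow_mul,
    zpow_natCast, e2, one_zpow]

/-- The elements outside a proper subgroup generate: two of them do not commute if the group is not
abelian. -/
theorem exists_outside {Q : Type u} [Group Q] (T : Subgroup Q) (hT : T ≠ ⊤)
    (hna : ∃ a b : Q, a * b ≠ b * a) : ∃ x ∉ T, ∃ y ∉ T, x * y ≠ y * x := by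
  by_contra hcon
  push Not at hcon
  obtain ⟨o, ho⟩ : ∃ o, o ∉ T := by
    by_contra h; push Not at h; exact hT (eq_top_iff.2 fun x _ => h x)
  have gen : ∀ x : Q, (∀ y, y ∉ T → Commute x y) → ∀ y, Commute x y := by
    intro x h y
    by_cases hy : y ∈ T
    · have h1 : o * y ∉ T := fun h' => ho (by simpa using T.mul_mem h' (T.inv_mem hy))
      simpa using (h o ho).inv_right.mul_right (h _ h1)
    · exact h y hy
  obtain ⟨a, b, hab⟩ := hna
  exact hab (gen a (fun y hy => (gen y (fun z hz => hcon y hy z hz) a).symm) b)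

/-- The bound for a given open normal subgroup. -/
theorem bound (hpp : p.Prime) (hp : ∀ U : OpenNormalSubgroup G, IsPGroup p (G ⧸ U.toSubgroup))
    (N : OpenNormalSubgroup G) {k : ℕ} (hk : ∀ g : G, g ^ p ^ k ∈ N)
    (hS : Stilde G ⊔ N.toSubgroup ≠ ⊤) (hna : ∃ a b : G, a * b * a⁻¹ * b⁻¹ ∉ N) (g : G) :
    g ^ p ^ (4 * k) = 1 := by
  have hquot : ∀ a b : G, a * b * a⁻¹ * b⁻¹ ∈ N ↔
      (QuotientGroup.mk a : G ⧸ N.toSubgroup) * QuotientGroup.mk b =
        QuotientGroup.mk b * QuotientGroup.mk a := by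
    intro a b
    have h1 : a * b * a⁻¹ * b⁻¹ ∈ N ↔
        (QuotientGroup.mk (a * b * a⁻¹ * b⁻¹) : G ⧸ N.toSubgroup) = 1 :=
      (QuotientGroup.eq_one_iff _).symm
    rw [h1]
    constructor
    · intro h
      have : (QuotientGroup.mk a : G ⧸ N.toSubgroup) * QuotientGroup.mk b *
          (QuotientGroup.mk a)⁻¹ * (QuotientGroup.mk b)⁻¹ = 1 := h
      exact commutatorElement_eq_one_iff_mul_comm.1 this
    · intro h
      exact commutatorElement_eq_one_iff_mul_comm.2 h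
  -- two elements outside `S̃ N` which do not commute modulo `N`
  obtain ⟨x, hx, y, hy, hxy⟩ : ∃ x ∉ Stilde G ⊔ N.toSubgroup, ∃ y ∉ Stilde G ⊔ N.toSubgroup,
      x * y * x⁻¹ * y⁻¹ ∉ N := by
    obtain ⟨a, b, hab⟩ := hna
    let T : Subgroup (G ⧸ N.toSubgroup) :=
      (Stilde G ⊔ N.toSubgroup).map (QuotientGroup.mk' N.toSubgroup)
    have hmem : ∀ z : G, (QuotientGroup.mk z : G ⧸ N.toSubgroup) ∈ T ↔
        z ∈ Stilde G ⊔ N.toSubgroup := by
      intro z
      constructor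
      · rintro ⟨w, hw, hwz⟩
        have h1 : w⁻¹ * z ∈ N.toSubgroup := QuotientGroup.eq.1 hwz
        have h2 : w⁻¹ * z ∈ Stilde G ⊔ N.toSubgroup := (le_sup_right : N.toSubgroup ≤ _) h1
        simpa using Subgroup.mul_mem _ hw h2
      · intro hz
        exact ⟨z, hz, rfl⟩
    have hT : T ≠ ⊤ := by
      intro h
      apply hS
      rw [eq_top_iff]
      intro z _
      rw [← hmem, h]
      trivial
    obtain ⟨x, hx, y, hy, hne⟩ := exists_outside T hT
      ⟨QuotientGroup.mk a, QuotientGroup.mk b, fun h => hab ((hquot a b).2 h)⟩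
    obtain ⟨x, rfl⟩ := QuotientGroup.mk_surjective x
    obtain ⟨y, rfl⟩ := QuotientGroup.mk_surjective y
    exact ⟨x, fun h => hx ((hmem x).2 h), y, fun h => hy ((hmem y).2 h),
      fun h => hne ((hquot x y).1 h)⟩
  have hSle : Stilde G ≤ Stilde G ⊔ N.toSubgroup := le_sup_left
  have hxS : x ∉ Stilde G := fun h => hx (hSle h)
  have hyS : y ∉ Stilde G := fun h => hy (hSle h)
  -- the least power of `x` in `N`
  have hex : ∃ j, x ^ p ^ j ∈ N := ⟨k, hk x⟩
  classical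
  set j := Nat.find hex with hj
  have hjN : x ^ p ^ j ∈ N := Nat.find_spec hex
  have hjk : j ≤ k := Nat.find_min' hex (hk x)
  have hxo : x ^ p ^ (2 * j) = 1 := order_bound hpp hp N hxS hyS hxy hjN
  have hxfin : IsOfFinOrder x := isOfFinOrder_iff_pow_eq_one.2
    ⟨_, Nat.pos_of_ne_zero (pow_ne_zero (2 * j) hpp.ne_zero), hxo⟩
  have hnx := normal_of_notMem hxS
  -- elements of `N`
  have key1 : ∀ g : G, g ∈ N → g ^ p ^ (3 * k) = 1 := by
    intro g hg
    have hgx : x * g ∉ Stilde G ⊔ N.toSubgroup := by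
      intro h
      apply hx
      have h2 : g ∈ Stilde G ⊔ N.toSubgroup := (le_sup_right : N.toSubgroup ≤ _) hg
      simpa using Subgroup.mul_mem _ h (Subgroup.inv_mem _ h2)
    have hgy : (x * g) * y * (x * g)⁻¹ * y⁻¹ ∉ N := by
      rw [hquot]
      rw [hquot] at hxy
      have e : (QuotientGroup.mk (x * g) : G ⧸ N.toSubgroup) = QuotientGroup.mk x := by
        rw [QuotientGroup.mk_mul, (QuotientGroup.eq_one_iff g).2 hg, mul_one]
      rwa [e]
    have h1 : (x * g) ^ p ^ (2 * k) = 1 :=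
      order_bound hpp hp N (fun h => hgx (hSle h)) hyS hgy (hk _)
    -- `g ^ (p ^ (2 k))` is a power of `x`
    have h2 : g ^ p ^ (2 * k) ∈ (Subgroup.zpowers x).topologicalClosure := by
      rw [← QuotientGroup.eq_one_iff, QuotientGroup.mk_pow]
      have h3 := congrArg (QuotientGroup.mk (s := (Subgroup.zpowers x).topologicalClosure)) h1
      rwa [QuotientGroup.mk_pow, QuotientGroup.mk_mul, (QuotientGroup.eq_one_iff x).2 (self_mem x),
        one_mul] at h3
    obtain ⟨m, hm⟩ := Subgroup.topologicalClosure_minimal _ le_rfl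
      (finite_zpowers.2 hxfin).isClosed h2
    have hm' : x ^ m = g ^ p ^ (2 * k) := hm
    have hmN : x ^ m ∈ N := by
      rw [hm']
      exact N.toSubgroup.pow_mem hg _
    -- `p ^ j ∣ m`
    have hdvd : ((p ^ j : ℕ) : ℤ) ∣ m := by
      obtain ⟨i, hij, hi⟩ := (Nat.dvd_prime_pow hpp).1
        (Int.natCast_dvd_natCast.1 (Int.gcd_dvd_right m ((p ^ j : ℕ) : ℤ)))
      have hb := Int.gcd_eq_gcd_ab m ((p ^ j : ℕ) : ℤ)
      rw [hi] at hb
      have h4 : x ^ ((p ^ i : ℕ) : ℤ) ∈ N.toSubgroup := by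
        rw [hb, zpow_add, zpow_mul, zpow_mul, zpow_natCast]
        exact N.toSubgroup.mul_mem (N.toSubgroup.zpow_mem hmN _) (N.toSubgroup.zpow_mem hjN _)
      rw [zpow_natCast] at h4
      have h5 : j ≤ i := Nat.find_min' hex h4
      have h6 : i = j := le_antisymm hij h5
      rw [h6] at hi
      have h7 := Int.gcd_dvd_left m ((p ^ j : ℕ) : ℤ)
      rwa [hi] at h7
    obtain ⟨t, rfl⟩ := hdvd
    have h8 : (x ^ (((p ^ j : ℕ) : ℤ) * t)) ^ p ^ k = 1 := by
      obtain ⟨d, rfl⟩ := Nat.exists_eq_add_of_le hjk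
      rw [← zpow_natCast _ (p ^ (j + d)), ← zpow_mul,
        show ((p ^ j : ℕ) : ℤ) * t * ((p ^ (j + d) : ℕ) : ℤ) =
          ((p ^ (2 * j) : ℕ) : ℤ) * (t * ((p ^ d : ℕ) : ℤ)) by push_cast; ring,
        zpow_mul, zpow_natCast, hxo, one_zpow]
    rw [hm', ← pow_mul, ← pow_add, show 2 * k + k = 3 * k by ring] at h8
    exact h8
  have h9 := key1 _ (hk g)
  rwa [← pow_mul, ← pow_add, show k + 3 * k = 4 * k by ring] at h9

/-- **Exponents of pro-`p` Cappitt groups.** Let `G` be a pro-`p` group.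

(1) If `N` is an open normal subgroup such that `S̃(G) N ≠ G` and `G / N` is not abelian and has
exponent dividing `p ^ k`, then the exponent of `G` divides `p ^ (4 k)`.

(2) If `S̃(G) ≠ G` and `G` is not abelian, then such an `N` exists; in particular `G` has finite
exponent, so it is periodic (Q1). -/
theorem result (p : ℕ) (hpp : p.Prime) (G : Type u) [Group G] [TopologicalSpace G]
    [IsTopologicalGroup G] [CompactSpace G] [T2Space G] [TotallyDisconnectedSpace G]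
    (hp : ∀ U : OpenNormalSubgroup G, IsPGroup p (G ⧸ U.toSubgroup)) :
    (∀ (N : OpenNormalSubgroup G) (k : ℕ), (∀ g : G, g ^ p ^ k ∈ N) →
      Stilde G ⊔ N.toSubgroup ≠ ⊤ → (∃ a b : G, a * b * a⁻¹ * b⁻¹ ∉ N) →
      ∀ g : G, g ^ p ^ (4 * k) = 1) ∧
    (Stilde G ≠ ⊤ → (∃ a b : G, a * b ≠ b * a) →
      (∃ (N : OpenNormalSubgroup G) (k : ℕ), (∀ g : G, g ^ p ^ k ∈ N) ∧
        Stilde G ⊔ N.toSubgroup ≠ ⊤ ∧ ∃ a b : G, a * b * a⁻¹ * b⁻¹ ∉ N) ∧
      ∃ k : ℕ, ∀ g : G, g ^ p ^ (4 * k) = 1) := by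
  have h1 : ∀ (N : OpenNormalSubgroup G) (k : ℕ), (∀ g : G, g ^ p ^ k ∈ N) →
      Stilde G ⊔ N.toSubgroup ≠ ⊤ → (∃ a b : G, a * b * a⁻¹ * b⁻¹ ∉ N) →
      ∀ g : G, g ^ p ^ (4 * k) = 1 := fun N k hk hS hna g => bound hpp hp N hk hS hna g
  refine ⟨h1, fun hS hna => ?_⟩
  have h2 : ∃ (N : OpenNormalSubgroup G) (k : ℕ), (∀ g : G, g ^ p ^ k ∈ N) ∧
        Stilde G ⊔ N.toSubgroup ≠ ⊤ ∧ ∃ a b : G, a * b * a⁻¹ * b⁻¹ ∉ N := by
    obtain ⟨a, b, hab⟩ := hna
    obtain ⟨o, ho⟩ : ∃ o, o ∉ Stilde G := by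
      by_contra h; push Not at h; exact hS (eq_top_iff.2 fun x _ => h x)
    have hc1 : a * b * a⁻¹ * b⁻¹ ≠ 1 := fun h => hab (commutatorElement_eq_one_iff_mul_comm.1 h)
    have hcl : IsClosed (Stilde G : Set G) := Subgroup.isClosed_topologicalClosure _
    obtain ⟨U, hU⟩ := ProfiniteGrp.exist_openNormalSubgroup_sub_open_nhds_of_one
      (U := ({a * b * a⁻¹ * b⁻¹}ᶜ ∩ (o * ·) ⁻¹' ((Stilde G : Set G)ᶜ) : Set G))
      (isOpen_compl_singleton.inter (hcl.isOpen_compl.preimage (by fun_prop)))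
      ⟨by simpa using hc1.symm, by simpa using ho⟩
    have hfin : Finite (G ⧸ U.toSubgroup) := Subgroup.quotient_finite_of_isOpen _ U.isOpen'
    have : Fact p.Prime := ⟨hpp⟩
    obtain ⟨k, hk⟩ := (IsPGroup.iff_card (p := p) (G := G ⧸ U.toSubgroup)).1 (hp U)
    refine ⟨U, k, fun g => ?_, ?_, a, b, fun h => (hU h).1 rfl⟩
    · have h3 : (QuotientGroup.mk g : G ⧸ U.toSubgroup) ^ p ^ k = 1 := by
        rw [← hk]; exact pow_card_eq_one'
      exact (QuotientGroup.eq_one_iff _).1 h3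
    · intro h
      have h3 : o ∈ Stilde G ⊔ U.toSubgroup := by rw [h]; trivial
      rw [← SetLike.mem_coe, Subgroup.mul_normal] at h3
      obtain ⟨s, hs, u, hu, e⟩ := h3
      have h4 : u⁻¹ ∈ U := U.toSubgroup.inv_mem hu
      have h5 := (hU h4).2
      apply h5
      show o * u⁻¹ ∈ Stilde G
      rw [← e]
      simpa using hs
  obtain ⟨N, k, h3, h4, h5⟩ := id h2
  exact ⟨h2, k, h1 N k h3 h4 h5⟩

end Pool.Agent.Results.MP_b1a016_al.ExponentBound
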